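import Pool.Agent.H70.PT.Targets

/-!
De Mol's tag system on products of random blocks (MP_c95a35_lc): the high bits are independent of
the counters (HIB).
-/

set_option autoImplicit false

namespace Pool.Agent.H7.PT

open Finset Pool.Agent.H70.PT

private def ee (n l : ℕ) : Fin (2 ^ l) × Fin (2 ^ n) ≃ Fin (2 ^ (n + l)) :=
  finProdFinEquiv.trans (finCongr (by rw [pow_add, mul_comm]))

private theorem ee_val (n l : ℕ) (p : Fin (2 ^ l) × Fin (2 ^ n)) :
    ((ee n l p : Fin (2 ^ (n + l))) : ℕ) = p.2 + 2 ^ n * p.1 := rfl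

private theorem reidx (r n l : ℕ) (G : (Fin r → ℕ) → ℝ) :
    ∑ X : Fin r → Fin (2 ^ (n + l)), G (fun i => X i) =
      ∑ v : Fin r → Fin (2 ^ l), ∑ x : Fin r → Fin (2 ^ n), G (fun i => x i + 2 ^ n * v i) := by
  rw [← Fintype.sum_prod_type' (f := fun (v : Fin r → Fin (2 ^ l)) (x : Fin r → Fin (2 ^ n)) =>
    G (fun i => x i + 2 ^ n * v i))]
  refine (Fintype.sum_equiv ((Equiv.arrowProdEquivProdArrow (Fin r) (fun _ => Fin (2 ^ l))
    (fun _ => Fin (2 ^ n))).symm.trans (Equiv.piCongrRight fun _ => ee n l)) _ _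
    fun p => ?_).symm
  rfl

/-- (HIB) the high bits are independent of the counters. -/
theorem pf_HIB (CNT : T_CNT) : T_HIB := by
  intro r n l g
  unfold SS
  rw [reidx r n l (fun X => ∑ Y : Fin r → Fin (2 ^ (n + l)), g (PP n (false, X, fun i => Y i))
    (QQ n (false, X, fun i => Y i)) (fun i => X i / 2 ^ n) (fun i => Y i / 2 ^ n))]
  refine sum_congr rfl fun v _ => ?_
  have h1 : ∀ x : Fin r → Fin (2 ^ n),
      ∑ Y : Fin r → Fin (2 ^ (n + l)), g (PP n (false, (fun i => (x i : ℕ) + 2 ^ n * v i),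
        fun i => Y i)) (QQ n (false, (fun i => (x i : ℕ) + 2 ^ n * v i), fun i => Y i))
        (fun i => ((x i : ℕ) + 2 ^ n * v i) / 2 ^ n) (fun i => Y i / 2 ^ n) =
      ∑ w : Fin r → Fin (2 ^ l), ∑ y : Fin r → Fin (2 ^ n),
        g (PP n (false, (fun i => (x i : ℕ) + 2 ^ n * v i), fun i => (y i : ℕ) + 2 ^ n * w i))
          (QQ n (false, (fun i => (x i : ℕ) + 2 ^ n * v i), fun i => (y i : ℕ) + 2 ^ n * w i))
          (fun i => v i) (fun i => w i) := by
    intro x
    rw [reidx r n l (fun Y => g (PP n (false, (fun i => (x i : ℕ) + 2 ^ n * v i), Y))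
      (QQ n (false, (fun i => (x i : ℕ) + 2 ^ n * v i), Y))
      (fun i => ((x i : ℕ) + 2 ^ n * v i) / 2 ^ n) (fun i => Y i / 2 ^ n))]
    refine sum_congr rfl fun w _ => sum_congr rfl fun y _ => ?_
    have hp : 0 < 2 ^ n := by positivity
    have h2 : (fun i => ((x i : ℕ) + 2 ^ n * v i) / 2 ^ n) = fun i => (v i : ℕ) := by
      funext i
      rw [Nat.add_mul_div_left _ _ hp, Nat.div_eq_of_lt (x i).2, zero_add]
    have h3 : (fun i => ((y i : ℕ) + 2 ^ n * w i) / 2 ^ n) = fun i => (w i : ℕ) := by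
      funext i
      rw [Nat.add_mul_div_left _ _ hp, Nat.div_eq_of_lt (y i).2, zero_add]
    rw [h2, h3]
  rw [sum_congr rfl fun x _ => h1 x, sum_comm]
  refine sum_congr rfl fun w _ => ?_
  have h2 := CNT r (fun P Q => g P Q (fun i => v i) (fun i => w i)) n false (fun _ => 0)
    (fun _ => 0) (fun _ => 1) (fun _ => 1) (fun i => 2 ^ n * v i) (fun i => 2 ^ n * w i)
    (fun _ => odd_one) (fun _ => odd_one)
  refine Eq.trans ?_ h2
  unfold SS
  refine sum_congr rfl fun x _ => sum_congr rfl fun y _ => ?_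
  simp only [zero_add, one_mul]

end Pool.Agent.H7.PT
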